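import Mathlib
import Pool.Agent.Helper26.Maz.Cells
import Pool.Agent.Helper96.MazGen

/-!
# From the complement in the solid torus to the complement in the product with the sphere
(module MAZ-SPH)
-/

set_option autoImplicit false

namespace Pool.Agent.Helper35.MazSph

open Pool.Agent.Helper26.Maz

/-! ### The stereographic projection -/

/-- the inverse of the stereographic projection -/
noncomputable def ist (v : S2) : ℝ × ℝ :=
  ((v : EuclideanSpace ℝ (Fin 3)) 0 / (1 - (v : EuclideanSpace ℝ (Fin 3)) 2),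
    (v : EuclideanSpace ℝ (Fin 3)) 1 / (1 - (v : EuclideanSpace ℝ (Fin 3)) 2))

theorem st_0 (x z : ℝ) : (st x z : EuclideanSpace ℝ (Fin 3)) 0 = 2 * x / (1 + x ^ 2 + z ^ 2) := rfl

theorem st_1 (x z : ℝ) : (st x z : EuclideanSpace ℝ (Fin 3)) 1 = 2 * z / (1 + x ^ 2 + z ^ 2) := rfl

theorem st_2 (x z : ℝ) : (st x z : EuclideanSpace ℝ (Fin 3)) 2 =
    (x ^ 2 + z ^ 2 - 1) / (1 + x ^ 2 + z ^ 2) := rfl

theorem st_2_ne (x z : ℝ) : (st x z : EuclideanSpace ℝ (Fin 3)) 2 ≠ 1 := by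
  rw [st_2]
  intro h
  have h1 : 0 < 1 + x ^ 2 + z ^ 2 := by positivity
  rw [div_eq_iff h1.ne'] at h
  linarith

theorem ist_st (x z : ℝ) : ist (st x z) = (x, z) := by
  have h1 : 0 < 1 + x ^ 2 + z ^ 2 := by positivity
  have h2 : 1 - (x ^ 2 + z ^ 2 - 1) / (1 + x ^ 2 + z ^ 2) = 2 / (1 + x ^ 2 + z ^ 2) := by
    field_simp
    ring
  unfold ist
  rw [st_0, st_1, st_2, h2]
  ext
  · simp only
    field_simp
  · simp only
    field_simp

theorem S2_sq (v : S2) : (v : EuclideanSpace ℝ (Fin 3)) 0 ^ 2 + (v : EuclideanSpace ℝ (Fin 3)) 1 ^ 2 +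
    (v : EuclideanSpace ℝ (Fin 3)) 2 ^ 2 = 1 := by
  have h := v.2
  rw [mem_sphere_zero_iff_norm, EuclideanSpace.norm_eq, Real.sqrt_eq_one] at h
  simpa only [Fin.sum_univ_three, Real.norm_eq_abs, sq_abs] using h

theorem S2_ext {v w : S2} (h0 : (v : EuclideanSpace ℝ (Fin 3)) 0 = (w : EuclideanSpace ℝ (Fin 3)) 0)
    (h1 : (v : EuclideanSpace ℝ (Fin 3)) 1 = (w : EuclideanSpace ℝ (Fin 3)) 1)
    (h2 : (v : EuclideanSpace ℝ (Fin 3)) 2 = (w : EuclideanSpace ℝ (Fin 3)) 2) : v = w := by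
  apply Subtype.ext
  ext i
  fin_cases i
  · exact h0
  · exact h1
  · exact h2

theorem st_ist (v : S2) (hv : (v : EuclideanSpace ℝ (Fin 3)) 2 ≠ 1) :
    st (ist v).1 (ist v).2 = v := by
  have h := S2_sq v
  have hw : 1 - (v : EuclideanSpace ℝ (Fin 3)) 2 ≠ 0 := sub_ne_zero.mpr (Ne.symm hv)
  set a := (v : EuclideanSpace ℝ (Fin 3)) 0 with ha
  set b := (v : EuclideanSpace ℝ (Fin 3)) 1 with hb
  set c := (v : EuclideanSpace ℝ (Fin 3)) 2 with hc
  have hd : 1 + (a / (1 - c)) ^ 2 + (b / (1 - c)) ^ 2 = 2 / (1 - c) := by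
    field_simp
    nlinarith
  apply S2_ext
  · rw [st_0]
    change 2 * (a / (1 - c)) / (1 + (a / (1 - c)) ^ 2 + (b / (1 - c)) ^ 2) = a
    rw [hd]
    field_simp
  · rw [st_1]
    change 2 * (b / (1 - c)) / (1 + (a / (1 - c)) ^ 2 + (b / (1 - c)) ^ 2) = b
    rw [hd]
    field_simp
  · rw [st_2]
    change ((a / (1 - c)) ^ 2 + (b / (1 - c)) ^ 2 - 1) / (1 + (a / (1 - c)) ^ 2 + (b / (1 - c)) ^ 2) = c
    have : (a / (1 - c)) ^ 2 + (b / (1 - c)) ^ 2 - 1 = 2 / (1 - c) - 2 := by linarith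
    rw [hd, this]
    field_simp
    ring

theorem continuous_st : Continuous fun p : ℝ × ℝ => st p.1 p.2 := by
  apply Continuous.subtype_mk
  have h : ∀ p : ℝ × ℝ, 1 + p.1 ^ 2 + p.2 ^ 2 ≠ 0 := fun p => by positivity
  apply (PiLp.continuous_toLp 2 _).comp
  apply continuous_pi
  intro i
  fin_cases i
  · exact Continuous.div (by fun_prop) (by fun_prop) h
  · exact Continuous.div (by fun_prop) (by fun_prop) h
  · exact Continuous.div (by fun_prop) (by fun_prop) h

theorem continuous_emb : Continuous emb := by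
  unfold emb
  exact continuous_fst.prodMk (continuous_st.comp continuous_snd)

theorem emb_injective : Function.Injective emb := by
  intro p q h
  have h1 : p.1 = q.1 := (Prod.ext_iff.mp h).1
  have h2 : st p.2.1 p.2.2 = st q.2.1 q.2.2 := (Prod.ext_iff.mp h).2
  have h3 := congrArg ist h2
  rw [ist_st, ist_st] at h3
  exact Prod.ext h1 h3

/-- the inverse of `emb` -/
noncomputable def iemb (p : C4 × S2) : C4 × ℝ × ℝ := (p.1, ist p.2)

theorem iemb_emb (p : C4 × ℝ × ℝ) : iemb (emb p) = p := by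
  unfold iemb emb
  simp only
  rw [ist_st]

theorem emb_iemb (p : C4 × S2) (hp : (p.2 : EuclideanSpace ℝ (Fin 3)) 2 ≠ 1) :
    emb (iemb p) = p := by
  unfold iemb emb
  simp only
  rw [st_ist _ hp]

theorem continuous_S2_apply (i : Fin 3) : Continuous fun v : S2 => (v : EuclideanSpace ℝ (Fin 3)) i :=
  (EuclideanSpace.proj (𝕜 := ℝ) i).continuous.comp continuous_subtype_val

theorem continuousOn_iemb : ContinuousOn iemb {p | (p.2 : EuclideanSpace ℝ (Fin 3)) 2 ≠ 1} := by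
  unfold iemb ist
  have h0 := (continuous_S2_apply 0).comp (continuous_snd (X := C4))
  have h1 := (continuous_S2_apply 1).comp (continuous_snd (X := C4))
  have h2 := (continuous_S2_apply 2).comp (continuous_snd (X := C4))
  refine continuous_fst.continuousOn.prodMk (ContinuousOn.prodMk ?_ ?_)
  · exact h0.continuousOn.div (continuous_const.sub h2).continuousOn
      fun p hp => sub_ne_zero.mpr (Ne.symm hp)
  · exact h1.continuousOn.div (continuous_const.sub h2).continuousOn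
      fun p hp => sub_ne_zero.mpr (Ne.symm hp)

/-! ### The polygons -/

/-- partial sums -/
def psum (c : Fin 26 → ℤ) (k : Fin 26) : ℤ := ∑ i : Fin 26, if i < k then c i else 0

theorem coef_eq (t : ℝ) (k : Fin 26) (h0 : (k : ℝ) ≤ t) (h1 : t < k + 1) (i : Fin 26) :
    max 0 (min 1 (t - i)) = (if i < k then 1 else 0) + (t - k) * (if i = k then 1 else 0) := by
  rcases lt_trichotomy i k with h | h | h
  · have h2 : ((i : ℕ) : ℝ) + 1 ≤ (k : ℕ) := by
      have : (i : ℕ) + 1 ≤ (k : ℕ) := h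
      exact_mod_cast this
    rw [if_pos h, if_neg h.ne, min_eq_left (by linarith)]
    simp
  · subst h
    rw [if_neg (lt_irrefl _), if_pos rfl, min_eq_right (by linarith), max_eq_right (by linarith)]
    ring
  · have h2 : ((k : ℕ) : ℝ) + 1 ≤ (i : ℕ) := by
      have : (k : ℕ) + 1 ≤ (i : ℕ) := h
      exact_mod_cast this
    rw [if_neg (not_lt.mpr h.le), if_neg h.ne', min_eq_right (by linarith),
      max_eq_left (by linarith)]
    simp

theorem sum_coef (c : Fin 26 → ℤ) (t : ℝ) (k : Fin 26) (h0 : (k : ℝ) ≤ t) (h1 : t < k + 1) :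
    ∑ i : Fin 26, max 0 (min 1 (t - i)) * (c i : ℝ) = psum c k + (t - k) * c k := by
  have : ∀ i : Fin 26, max 0 (min 1 (t - i)) * (c i : ℝ) =
      (if i < k then (c i : ℝ) else 0) + (if i = k then (t - k) * (c i : ℝ) else 0) := by
    intro i
    rw [coef_eq t k h0 h1 i]
    split_ifs <;> ring
  rw [Finset.sum_congr rfl fun i _ => this i, Finset.sum_add_distrib, Finset.sum_ite_eq']
  simp only [Finset.mem_univ, if_true]
  congr 1
  unfold psum
  push_cast
  rfl

theorem polygon_form (s : Fin 26 → ℤ × ℤ × ℤ) (p : ℝ × ℝ × ℝ) (t : C26) :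
    ∃ (k : Fin 26) (θ : ℝ), 0 ≤ θ ∧ θ < 1 ∧ polygon s p t =
      (((p.1 + ((psum (fun i => (s i).1) k : ℤ) + θ * ((s k).1 : ℤ)) : ℝ) : C4),
        p.2.1 + ((psum (fun i => (s i).2.1) k : ℤ) + θ * ((s k).2.1 : ℤ)),
        p.2.2 + ((psum (fun i => (s i).2.2) k : ℤ) + θ * ((s k).2.2 : ℤ))) := by
  obtain ⟨x, hx, rfl⟩ := AddCircle.eq_coe_Ico t
  have hx' : x ∈ Set.Ico (0 : ℝ) (0 + 26) := by simpa using hx
  have hk0 : ((⌊x⌋₊ : ℕ) : ℝ) ≤ x := Nat.floor_le hx.1
  have hk1 : x < ((⌊x⌋₊ : ℕ) : ℝ) + 1 := Nat.lt_floor_add_one x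
  have hk : ⌊x⌋₊ < 26 := by
    rw [Nat.floor_lt hx.1]
    exact hx.2
  refine ⟨⟨⌊x⌋₊, hk⟩, x - ⌊x⌋₊, by linarith, by linarith, ?_⟩
  unfold polygon
  rw [AddCircle.liftIco_coe_apply hx', sum_coef (fun i => (s i).1) x ⟨⌊x⌋₊, hk⟩ hk0 hk1,
    sum_coef (fun i => (s i).2.1) x ⟨⌊x⌋₊, hk⟩ hk0 hk1,
    sum_coef (fun i => (s i).2.2) x ⟨⌊x⌋₊, hk⟩ hk0 hk1]

theorem convex_bound {a b : ℤ} {θ l u : ℝ} (h0 : 0 ≤ θ) (h1 : θ < 1) (ha : l ≤ a) (hb : l ≤ (a + b : ℤ))
    (ha' : (a : ℝ) ≤ u) (hb' : ((a + b : ℤ) : ℝ) ≤ u) : l ≤ a + θ * b ∧ a + θ * b ≤ u := by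
  push_cast at hb hb'
  constructor
  · nlinarith
  · nlinarith

theorem steps_bound : ∀ k : Fin 26, (0 ≤ psum (fun i => (steps i).2.1) k ∧
    0 ≤ psum (fun i => (steps i).2.1) k + (steps k).2.1 ∧
    psum (fun i => (steps i).2.1) k ≤ 3 ∧ psum (fun i => (steps i).2.1) k + (steps k).2.1 ≤ 3) ∧
    (-1 ≤ psum (fun i => (steps i).2.2) k ∧
    -1 ≤ psum (fun i => (steps i).2.2) k + (steps k).2.2 ∧
    psum (fun i => (steps i).2.2) k ≤ 1 ∧ psum (fun i => (steps i).2.2) k + (steps k).2.2 ≤ 1) := by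
  decide +kernel

theorem K0_box {p : C4 × ℝ × ℝ} (hp : p ∈ K0) : (0 ≤ p.2.1 ∧ p.2.1 ≤ 3) ∧ 0 ≤ p.2.2 ∧ p.2.2 ≤ 2 := by
  obtain ⟨t, rfl⟩ := hp
  obtain ⟨k, θ, h0, h1, hk⟩ := polygon_form steps (0, 0, 1 + 0) t
  unfold knot
  rw [hk]
  obtain ⟨⟨b1, b2, b3, b4⟩, c1, c2, c3, c4⟩ := steps_bound k
  have e1 := convex_bound (l := 0) (u := 3) h0 h1 (by exact_mod_cast b1) (by exact_mod_cast b2)
    (by exact_mod_cast b3) (by exact_mod_cast b4)
  have e2 := convex_bound (l := -1) (u := 1) h0 h1 (by exact_mod_cast c1) (by exact_mod_cast c2)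
    (by exact_mod_cast c3) (by exact_mod_cast c4)
  refine ⟨⟨?_, ?_⟩, ?_, ?_⟩ <;> simp only <;> linarith [e1.1, e1.2, e2.1, e2.2]

theorem ring_bound : ∀ k : Fin 26, (ringSteps k).1 = 0 ∧ psum (fun i => (ringSteps i).1) k = 0 ∧
    ((psum (fun i => (ringSteps i).2.1) k ≤ 0 ∧
      psum (fun i => (ringSteps i).2.1) k + (ringSteps k).2.1 ≤ 0) ∨
    (4 ≤ psum (fun i => (ringSteps i).2.1) k ∧
      4 ≤ psum (fun i => (ringSteps i).2.1) k + (ringSteps k).2.1) ∨
    (psum (fun i => (ringSteps i).2.2) k ≤ 0 ∧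
      psum (fun i => (ringSteps i).2.2) k + (ringSteps k).2.2 ≤ 0) ∨
    (3 ≤ psum (fun i => (ringSteps i).2.2) k ∧
      3 ≤ psum (fun i => (ringSteps i).2.2) k + (ringSteps k).2.2)) := by
  decide +kernel

theorem ring_spec (t : C26) : (ring t).1 = ((1 / 2 : ℝ) : C4) ∧ ring t ∈ outerR := by
  obtain ⟨k, θ, h0, h1, hk⟩ := polygon_form ringSteps (1 / 2, -1 / 2, -1 / 2) t
  unfold ring
  rw [hk]
  obtain ⟨a1, a2, h⟩ := ring_bound k
  constructor
  · simp only
    rw [a1, a2]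
    simp
  · have key : ∀ {a b : ℤ} {u : ℝ}, (a : ℝ) ≤ u → ((a + b : ℤ) : ℝ) ≤ u → (a : ℝ) + θ * b ≤ u := by
      intro a b u ha hb
      push_cast at hb
      nlinarith
    have key' : ∀ {a b : ℤ} {u : ℝ}, u ≤ (a : ℝ) → u ≤ ((a + b : ℤ) : ℝ) → u ≤ (a : ℝ) + θ * b := by
      intro a b u ha hb
      push_cast at hb
      nlinarith
    rcases h with ⟨h, h'⟩ | ⟨h, h'⟩ | ⟨h, h'⟩ | ⟨h, h'⟩
    · left
      have := key (u := 0) (by exact_mod_cast h) (by exact_mod_cast h')
      simp only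
      linarith
    · right; left
      have := key' (u := 4) (by exact_mod_cast h) (by exact_mod_cast h')
      simp only
      linarith
    · right; right; left
      have := key (u := 0) (by exact_mod_cast h) (by exact_mod_cast h')
      simp only
      linarith
    · right; right; right
      have := key' (u := 3) (by exact_mod_cast h) (by exact_mod_cast h')
      simp only
      linarith

/-- every step is parallel to an axis -/
theorem steps_axis : ∀ k : Fin 26, ((steps k).1 = 0 ∧ (steps k).2.1 = 0) ∨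
    ((steps k).1 = 0 ∧ (steps k).2.2 = 0) ∨ ((steps k).2.1 = 0 ∧ (steps k).2.2 = 0) := by
  decide +kernel

theorem half_ne (a b : ℤ) : (a : ℝ) ≠ 1 / 2 + b := by
  intro h
  have : (2 * a : ℝ) = 1 + 2 * b := by linarith
  have : 2 * a = 1 + 2 * b := by exact_mod_cast this
  omega

theorem half_ne_C4 (a b : ℤ) : ((a : ℝ) : C4) ≠ ((1 / 2 + b : ℝ) : C4) := by
  intro h
  rw [← sub_eq_zero, ← AddCircle.coe_sub, AddCircle.coe_eq_zero_iff] at h
  obtain ⟨n, hn⟩ := h
  simp only [zsmul_eq_mul] at hn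
  apply half_ne a (b + n * 4)
  push_cast
  linarith

theorem knot_half_notMem (t : C26) : knot (1 / 2) t ∉ K0 := by
  rintro ⟨t', h⟩
  obtain ⟨k, θ, -, -, hk⟩ := polygon_form steps (1 / 2, 1 / 2, 1 + 1 / 2) t
  obtain ⟨k', θ', -, -, hk'⟩ := polygon_form steps (0, 0, 1 + 0) t'
  unfold knot at h
  rw [hk, hk'] at h
  obtain ⟨e1, e2⟩ := Prod.ext_iff.mp h
  obtain ⟨e2, e3⟩ := Prod.ext_iff.mp e2
  simp only at e1 e2 e3
  have A := steps_axis k
  have A' := steps_axis k'
  have c1 : ¬ ((steps k).1 = 0 ∧ (steps k').1 = 0) := by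
    rintro ⟨a, a'⟩
    rw [a, a'] at e1
    apply half_ne_C4 (psum (fun i => (steps i).1) k') (psum (fun i => (steps i).1) k)
    simpa using e1
  have c2 : ¬ ((steps k).2.1 = 0 ∧ (steps k').2.1 = 0) := by
    rintro ⟨a, a'⟩
    rw [a, a'] at e2
    apply half_ne (psum (fun i => (steps i).2.1) k') (psum (fun i => (steps i).2.1) k)
    simpa using e2
  have c3 : ¬ ((steps k).2.2 = 0 ∧ (steps k').2.2 = 0) := by
    rintro ⟨a, a'⟩
    rw [a, a'] at e3
    apply half_ne (1 + psum (fun i => (steps i).2.2) k') (1 + psum (fun i => (steps i).2.2) k)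
    push_cast
    simp only [Int.cast_zero, mul_zero, add_zero] at e3
    linarith
  tauto

/-! ### The contraction -/

/-- the north pole -/
noncomputable def npole : S2 := ⟨!₂[0, 0, 1], by
  rw [mem_sphere_zero_iff_norm, EuclideanSpace.norm_eq, Real.sqrt_eq_one]
  simp [Fin.sum_univ_three]⟩

theorem npole_2 : (npole : EuclideanSpace ℝ (Fin 3)) 2 = 1 := rfl

theorem eq_npole {v : S2} (hv : (v : EuclideanSpace ℝ (Fin 3)) 2 = 1) : v = npole := by
  have h := S2_sq v
  rw [hv] at h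
  have h0 : (v : EuclideanSpace ℝ (Fin 3)) 0 = 0 := by
    apply pow_eq_zero_iff (two_ne_zero) |>.mp
    nlinarith [sq_nonneg ((v : EuclideanSpace ℝ (Fin 3)) 0), sq_nonneg ((v : EuclideanSpace ℝ (Fin 3)) 1)]
  have h1 : (v : EuclideanSpace ℝ (Fin 3)) 1 = 0 := by
    apply pow_eq_zero_iff (two_ne_zero) |>.mp
    nlinarith [sq_nonneg ((v : EuclideanSpace ℝ (Fin 3)) 0), sq_nonneg ((v : EuclideanSpace ℝ (Fin 3)) 1)]
  exact S2_ext h0 h1 hv

/-- the complement of the image of the box -/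
def VV : Set S2 := ((fun p : ℝ × ℝ => st p.1 p.2) '' (Set.Icc 0 3 ×ˢ Set.Icc 0 2))ᶜ

theorem isOpen_VV : IsOpen VV := by
  unfold VV
  rw [isOpen_compl_iff]
  exact ((isCompact_Icc.prod isCompact_Icc).image continuous_st).isClosed

theorem mem_VV_of_2 {v : S2} (hv : (v : EuclideanSpace ℝ (Fin 3)) 2 = 1) : v ∈ VV := by
  rintro ⟨p, -, rfl⟩
  exact st_2_ne _ _ hv

theorem st_mem_VV {x z : ℝ} : st x z ∈ VV ↔ (x < 0 ∨ 3 < x ∨ z < 0 ∨ 2 < z) := by
  constructor
  · intro h
    by_contra hn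
    push Not at hn
    exact h ⟨(x, z), ⟨⟨hn.1, hn.2.1⟩, hn.2.2.1, hn.2.2.2⟩, rfl⟩
  · rintro h ⟨p, ⟨⟨h1, h2⟩, h3, h4⟩, hp⟩
    have := congrArg ist hp
    simp only [ist_st] at this
    obtain ⟨e1, e2⟩ := Prod.ext_iff.mp this
    simp only at e1 e2
    rw [e1] at h1 h2
    rw [e2] at h3 h4
    rcases h with h | h | h | h <;> linarith

/-- the denominator of the contraction -/
noncomputable def Dn (v : S2) (s : ℝ) : ℝ :=
  (1 - s) ^ 2 * (1 - (v : EuclideanSpace ℝ (Fin 3)) 2) + (1 + (v : EuclideanSpace ℝ (Fin 3)) 2) -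
    2 * s * (3 / 2 * (v : EuclideanSpace ℝ (Fin 3)) 0 + (v : EuclideanSpace ℝ (Fin 3)) 1) +
    s ^ 2 * (1 - (v : EuclideanSpace ℝ (Fin 3)) 2) * (13 / 4)

theorem Dn_st (x z s : ℝ) : Dn (st x z) s =
    2 / (1 + x ^ 2 + z ^ 2) * ((1 - s) ^ 2 + (x - s * (3 / 2)) ^ 2 + (z - s) ^ 2) := by
  have h1 : 0 < 1 + x ^ 2 + z ^ 2 := by positivity
  unfold Dn
  rw [st_0, st_1, st_2]
  field_simp
  ring

theorem Dn_pos {v : S2} (hv : v ∈ VV) (s : ℝ) : 0 < Dn v s := by
  by_cases h : (v : EuclideanSpace ℝ (Fin 3)) 2 = 1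
  · have h0 := eq_npole h
    subst h0
    have e0 : (npole : EuclideanSpace ℝ (Fin 3)) 0 = 0 := rfl
    have e1 : (npole : EuclideanSpace ℝ (Fin 3)) 1 = 0 := rfl
    unfold Dn
    rw [npole_2, e0, e1]
    norm_num
  · rw [← st_ist v h] at hv ⊢
    set x := (ist v).1
    set z := (ist v).2
    rw [Dn_st]
    rw [st_mem_VV] at hv
    have h1 : 0 < 1 + x ^ 2 + z ^ 2 := by positivity
    apply mul_pos (by positivity)
    by_contra hn
    push Not at hn
    have a1 : (1 - s) ^ 2 = 0 := by nlinarith [sq_nonneg (1 - s), sq_nonneg (x - s * (3 / 2)), sq_nonneg (z - s)]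
    have a2 : (x - s * (3 / 2)) ^ 2 = 0 := by nlinarith [sq_nonneg (1 - s), sq_nonneg (x - s * (3 / 2)), sq_nonneg (z - s)]
    have a3 : (z - s) ^ 2 = 0 := by nlinarith [sq_nonneg (1 - s), sq_nonneg (x - s * (3 / 2)), sq_nonneg (z - s)]
    have b1 : 1 - s = 0 := by simpa using a1
    have b2 : x - s * (3 / 2) = 0 := by simpa using a2
    have b3 : z - s = 0 := by simpa using a3
    have b4 : s = 1 := by linarith
    rw [b4] at b2 b3
    rcases hv with h | h | h | h <;> linarith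

/-- the vector of the contraction -/
noncomputable def kv (v : S2) (s : ℝ) : EuclideanSpace ℝ (Fin 3) :=
  !₂[2 * (1 - s) * ((v : EuclideanSpace ℝ (Fin 3)) 0 -
      s * (3 / 2) * (1 - (v : EuclideanSpace ℝ (Fin 3)) 2)) / Dn v s,
    2 * (1 - s) * ((v : EuclideanSpace ℝ (Fin 3)) 1 -
      s * (1 - (v : EuclideanSpace ℝ (Fin 3)) 2)) / Dn v s,
    (Dn v s - 2 * (1 - s) ^ 2 * (1 - (v : EuclideanSpace ℝ (Fin 3)) 2)) / Dn v s]

theorem kv_norm {v : S2} {s : ℝ} (h : Dn v s ≠ 0) : kv v s ∈ Metric.sphere (0 : EuclideanSpace ℝ (Fin 3)) 1 := by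
  rw [mem_sphere_zero_iff_norm, EuclideanSpace.norm_eq, Real.sqrt_eq_one]
  simp only [Fin.sum_univ_three, Real.norm_eq_abs, sq_abs]
  unfold kv
  simp only [Matrix.cons_val]
  rw [div_pow, div_pow, div_pow, ← add_div, ← add_div, div_eq_one_iff_eq (pow_ne_zero 2 h)]
  have hs := S2_sq v
  unfold Dn
  set a := (v : EuclideanSpace ℝ (Fin 3)) 0
  set b := (v : EuclideanSpace ℝ (Fin 3)) 1
  set c := (v : EuclideanSpace ℝ (Fin 3)) 2
  have ha : a ^ 2 = 1 - b ^ 2 - c ^ 2 := by linarith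
  linear_combination (4 * (1 - s) ^ 2) * hs

open Classical in
/-- the contraction -/
noncomputable def kap (v : S2) (s : ℝ) : S2 :=
  if h : Dn v s ≠ 0 then ⟨kv v s, kv_norm h⟩ else v

theorem kap_coe {v : S2} (hv : v ∈ VV) (s : ℝ) : (kap v s : EuclideanSpace ℝ (Fin 3)) = kv v s := by
  unfold kap
  rw [dif_pos (Dn_pos hv s).ne']

theorem continuous_Dn {Z : Type*} [TopologicalSpace Z] {f : Z → S2} {g : Z → ℝ} (hf : Continuous f)
    (hg : Continuous g) : Continuous fun z => Dn (f z) (g z) := by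
  unfold Dn
  have h0 := (continuous_S2_apply 0).comp hf
  have h1 := (continuous_S2_apply 1).comp hf
  have h2 := (continuous_S2_apply 2).comp hf
  simp only [Function.comp_def] at h0 h1 h2
  fun_prop

theorem continuous_kap {Z : Type*} [TopologicalSpace Z] {f : Z → S2} {g : Z → ℝ} (hf : Continuous f)
    (hg : Continuous g) (hV : ∀ z, f z ∈ VV) : Continuous fun z => kap (f z) (g z) := by
  rw [continuous_induced_rng]
  have : (Subtype.val ∘ fun z => kap (f z) (g z)) = fun z => kv (f z) (g z) := by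
    funext z
    exact kap_coe (hV z) (g z)
  rw [this]
  have hD := continuous_Dn hf hg
  have hne : ∀ z, Dn (f z) (g z) ≠ 0 := fun z => (Dn_pos (hV z) _).ne'
  have h0 := (continuous_S2_apply 0).comp hf
  have h1 := (continuous_S2_apply 1).comp hf
  have h2 := (continuous_S2_apply 2).comp hf
  simp only [Function.comp_def] at h0 h1 h2
  unfold kv
  apply (PiLp.continuous_toLp 2 _).comp
  apply continuous_pi
  intro i
  fin_cases i
  · exact Continuous.div (by fun_prop) hD hne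
  · exact Continuous.div (by fun_prop) hD hne
  · exact Continuous.div (by fun_prop) hD hne

theorem kap_zero {v : S2} (hv : v ∈ VV) : kap v 0 = v := by
  have hD : Dn v 0 = 2 := by unfold Dn; ring
  apply Subtype.ext
  rw [kap_coe hv]
  unfold kv
  rw [hD]
  ext i
  fin_cases i
  · simp
  · simp
  · simp
    ring

theorem kap_one {v : S2} (hv : v ∈ VV) : kap v 1 = npole := by
  have hD := (Dn_pos hv 1).ne'
  apply Subtype.ext
  rw [kap_coe hv]
  unfold kv npole
  ext i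
  fin_cases i
  · simp
  · simp
  · simp [hD]

theorem kap_mem {v : S2} (hv : v ∈ VV) {s : ℝ} (h0 : 0 ≤ s) (h1 : s ≤ 1) : kap v s ∈ VV := by
  by_cases h : (v : EuclideanSpace ℝ (Fin 3)) 2 = 1
  · apply mem_VV_of_2
    have e := eq_npole h
    subst e
    rw [kap_coe hv]
    have hD := (Dn_pos hv s).ne'
    unfold kv
    simp [npole_2, hD]
  · rcases eq_or_lt_of_le h1 with rfl | hs
    · rw [kap_one hv]
      exact mem_VV_of_2 npole_2
    · have hst := st_ist v h
      set x := (ist v).1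
      set z := (ist v).2
      have e : kap v s = st ((x - s * (3 / 2)) / (1 - s)) ((z - s) / (1 - s)) := by
        have hb : 1 - s ≠ 0 := by
          intro hb; linarith
        have hd1 : 0 < 1 + x ^ 2 + z ^ 2 := by positivity
        have hd2 : 0 < (1 - s) ^ 2 + (x - s * (3 / 2)) ^ 2 + (z - s) ^ 2 := by positivity
        have hd3 : 1 + ((x - s * (3 / 2)) / (1 - s)) ^ 2 + ((z - s) / (1 - s)) ^ 2 =
            ((1 - s) ^ 2 + (x - s * (3 / 2)) ^ 2 + (z - s) ^ 2) / (1 - s) ^ 2 := by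
          field_simp
        rw [← hst] at hv ⊢
        have hv2 : 1 - (st x z : EuclideanSpace ℝ (Fin 3)) 2 = 2 / (1 + x ^ 2 + z ^ 2) := by
          rw [st_2]
          field_simp
          ring
        apply S2_ext
        · rw [kap_coe hv]
          change 2 * (1 - s) * ((st x z : EuclideanSpace ℝ (Fin 3)) 0 -
            s * (3 / 2) * (1 - (st x z : EuclideanSpace ℝ (Fin 3)) 2)) / Dn (st x z) s = _
          rw [Dn_st, hv2, st_0, st_0, hd3]
          field_simp
        · rw [kap_coe hv]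
          change 2 * (1 - s) * ((st x z : EuclideanSpace ℝ (Fin 3)) 1 -
            s * (1 - (st x z : EuclideanSpace ℝ (Fin 3)) 2)) / Dn (st x z) s = _
          rw [Dn_st, hv2, st_1, st_1, hd3]
          field_simp
        · rw [kap_coe hv]
          change (Dn (st x z) s - 2 * (1 - s) ^ 2 * (1 - (st x z : EuclideanSpace ℝ (Fin 3)) 2)) /
            Dn (st x z) s = _
          rw [Dn_st, hv2, st_2, hd3]
          field_simp
          ring
      rw [e, st_mem_VV]
      rw [← hst, st_mem_VV] at hv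
      have hb : 0 < 1 - s := by linarith
      rw [div_lt_iff₀ hb, lt_div_iff₀ hb, div_lt_iff₀ hb, lt_div_iff₀ hb]
      rcases hv with h | h | h | h
      · left; nlinarith
      · right; left; nlinarith
      · right; right; left; nlinarith
      · right; right; right; nlinarith

/-! ### The open cover -/

/-- the part outside the north pole -/
def OA : Set (C4 × S2) := {p | (p.2 : EuclideanSpace ℝ (Fin 3)) 2 ≠ 1}

/-- the part outside the box -/
def OB : Set (C4 × S2) := {p | p.2 ∈ VV}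

theorem isOpen_OA : IsOpen OA :=
  isOpen_ne_fun ((continuous_S2_apply 2).comp continuous_snd) continuous_const

theorem isOpen_OB : IsOpen OB := isOpen_VV.preimage continuous_snd

theorem OA_union_OB (p : C4 × S2) : p ∈ OA ∨ p ∈ OB := by
  by_cases h : (p.2 : EuclideanSpace ℝ (Fin 3)) 2 = 1
  · exact Or.inr (mem_VV_of_2 h)
  · exact Or.inl h

theorem emb_mem_OA (p : C4 × ℝ × ℝ) : emb p ∈ OA := st_2_ne _ _

theorem emb_mem_KM {p : C4 × ℝ × ℝ} : emb p ∈ KM ↔ p ∈ K0 := emb_injective.mem_set_image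

theorem emb_mem_compl {p : C4 × ℝ × ℝ} (h : p ∈ K0ᶜ) : emb p ∈ KMᶜ := fun h' => h (emb_mem_KM.mp h')

theorem iemb_mem {p : C4 × S2} (h : p ∈ OA) (h' : p ∈ KMᶜ) : iemb p ∈ K0ᶜ := by
  intro h''
  apply h'
  rw [← emb_iemb p h]
  exact emb_mem_KM.mpr h''

theorem OB_subset : OB ⊆ KMᶜ := by
  rintro p hp ⟨k, hk, rfl⟩
  have h1 : st k.2.1 k.2.2 ∈ VV := hp
  rw [st_mem_VV] at h1
  have h2 := K0_box hk
  rcases h1 with h | h | h | h <;> linarith [h2.1.1, h2.1.2, h2.2.1, h2.2.2]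

theorem emb_mem_OB {p : C4 × ℝ × ℝ} : emb p ∈ OB ↔ p ∈ outerR := st_mem_VV

theorem outerR_subset : outerR ⊆ K0ᶜ := by
  intro p hp h
  exact OB_subset (emb_mem_OB.mpr hp) (emb_mem_KM.mpr h)

theorem isPathConnected_half {A : Set (ℝ × ℝ)} (hA : Convex ℝ A) (hne : A.Nonempty) :
    IsPathConnected ((Set.univ : Set C4) ×ˢ A) :=
  isPathConnected_univ.prod (hA.isPathConnected hne)

theorem isPathConnected_outerR : IsPathConnected outerR := by
  have h1 : Convex ℝ {q : ℝ × ℝ | q.1 < 0} := convex_halfSpace_lt (f := fun q : ℝ × ℝ => q.1) ⟨fun _ _ => rfl, fun _ _ => rfl⟩ 0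
  have h2 : Convex ℝ {q : ℝ × ℝ | 3 < q.1} := convex_halfSpace_gt (f := fun q : ℝ × ℝ => q.1) ⟨fun _ _ => rfl, fun _ _ => rfl⟩ 3
  have h3 : Convex ℝ {q : ℝ × ℝ | q.2 < 0} := convex_halfSpace_lt (f := fun q : ℝ × ℝ => q.2) ⟨fun _ _ => rfl, fun _ _ => rfl⟩ 0
  have h4 : Convex ℝ {q : ℝ × ℝ | 2 < q.2} := convex_halfSpace_gt (f := fun q : ℝ × ℝ => q.2) ⟨fun _ _ => rfl, fun _ _ => rfl⟩ 2
  have p1 := isPathConnected_half h1 ⟨(-1, 0), by norm_num⟩
  have p2 := isPathConnected_half h2 ⟨(4, 0), by norm_num⟩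
  have p3 := isPathConnected_half h3 ⟨(0, -1), by norm_num⟩
  have p4 := isPathConnected_half h4 ⟨(0, 3), by norm_num⟩
  have e : outerR = (((Set.univ : Set C4) ×ˢ {q : ℝ × ℝ | q.1 < 0} ∪
      (Set.univ : Set C4) ×ˢ {q : ℝ × ℝ | q.2 < 0}) ∪ (Set.univ : Set C4) ×ˢ {q : ℝ × ℝ | 3 < q.1}) ∪
      (Set.univ : Set C4) ×ˢ {q : ℝ × ℝ | 2 < q.2} := by
    ext p
    simp only [outerR, Set.mem_ofPred_eq, Set.mem_union, Set.mem_prod, Set.mem_univ, true_and]
    tauto
  rw [e]
  have q1 := p1.union p3 ⟨(0, (-1, -1)), by simp⟩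
  have q2 := q1.union p2 ⟨(0, (4, -1)), by right; simp, by simp; norm_num⟩
  exact q2.union p4 ⟨(0, (4, 3)), by right; simp; norm_num, by simp; norm_num⟩

/-- the contraction inside `OB` -/
theorem kap_OB {p : C4 × S2} (hp : p ∈ OB) (s : unitInterval) : (p.1, kap p.2 s) ∈ OB :=
  kap_mem hp s.2.1 s.2.2

/-- the path from a point of `OB` to the north pole -/
noncomputable def toN (p : C4 × S2) (hp : p ∈ OB) : Path p (p.1, npole) where
  toFun s := (p.1, kap p.2 s)
  continuous_toFun := continuous_const.prodMk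
    (continuous_kap (Z := unitInterval) continuous_const continuous_subtype_val fun _ => hp)
  source' := by
    change (p.1, kap p.2 0) = p
    rw [kap_zero hp]
  target' := by
    change (p.1, kap p.2 1) = _
    rw [kap_one hp]

theorem isPathConnected_OB : IsPathConnected OB := by
  have hN : ∀ a : C4, (a, npole) ∈ OB := fun a => mem_VV_of_2 npole_2
  refine ⟨((0 : C4), npole), hN 0, fun {p} hp => ?_⟩
  have j1 : JoinedIn OB p (p.1, npole) := ⟨toN p hp, fun s => kap_OB hp s⟩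
  have j2 : JoinedIn OB ((0 : C4), npole) (p.1, npole) := by
    obtain ⟨γ⟩ := PathConnectedSpace.joined (0 : C4) p.1
    exact ⟨γ.prod (Path.refl npole), fun s => hN _⟩
  exact j2.trans j1.symm

/-! ### Squares -/

theorem hol_square {X : Type*} [TopologicalSpace X] {Γ : Type*} [Group Γ] {S : Set X}
    (H : HolOn S Γ) {x00 x10 x01 x11 : X} (G : unitInterval × unitInterval → X) (hG : Continuous G)
    (hS : ∀ p, G p ∈ S) (b : Path x00 x10) (t : Path x01 x11) (l : Path x00 x01) (r : Path x10 x11)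
    (hb : ∀ s, b s = G (s, 0)) (ht : ∀ s, t s = G (s, 1)) (hl : ∀ s, l s = G (0, s))
    (hr : ∀ s, r s = G (1, s)) : H.hol b * H.hol r = H.hol l * H.hol t := by
  let f : ℝ × ℝ → X := fun p => G (Set.projIcc 0 1 zero_le_one p.1, Set.projIcc 0 1 zero_le_one p.2)
  have hf : Continuous f := by
    apply hG.comp
    exact (continuous_projIcc.comp continuous_fst).prodMk (continuous_projIcc.comp continuous_snd)
  have hfc : ∀ s t : unitInterval, f ((s : ℝ), (t : ℝ)) = G (s, t) := by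
    intro s t
    change G (Set.projIcc 0 1 zero_le_one (s : ℝ), Set.projIcc 0 1 zero_le_one (t : ℝ)) = G (s, t)
    rw [Set.projIcc_val, Set.projIcc_val]
  obtain ⟨H', hH'⟩ := HolOn.exists_pull (S := Set.univ) f hf.continuousOn (fun p _ => hS _) H
  have f0 : ∀ s : unitInterval, f ((s : ℝ), 0) = G (s, 0) := fun s => hfc s 0
  have f1 : ∀ s : unitInterval, f ((s : ℝ), 1) = G (s, 1) := fun s => hfc s 1
  have f2 : ∀ s : unitInterval, f (0, (s : ℝ)) = G (0, s) := fun s => hfc 0 s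
  have f3 : ∀ s : unitInterval, f (1, (s : ℝ)) = G (1, s) := fun s => hfc 1 s
  obtain rfl : x00 = f (0, 0) := by rw [← b.source, hb, ← f0]; rfl
  obtain rfl : x10 = f (1, 0) := by rw [← b.target, hb, ← f0]; rfl
  obtain rfl : x01 = f (0, 1) := by rw [← t.source, ht, ← f1]; rfl
  obtain rfl : x11 = f (1, 1) := by rw [← t.target, ht, ← f1]; rfl
  let b' : Path ((0 : ℝ), (0 : ℝ)) (1, 0) :=
    { toFun := fun s => ((s : ℝ), 0)
      continuous_toFun := by fun_prop
      source' := by simp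
      target' := by simp }
  let t' : Path ((0 : ℝ), (1 : ℝ)) (1, 1) :=
    { toFun := fun s => ((s : ℝ), 1)
      continuous_toFun := by fun_prop
      source' := by simp
      target' := by simp }
  let l' : Path ((0 : ℝ), (0 : ℝ)) (0, 1) :=
    { toFun := fun s => (0, (s : ℝ))
      continuous_toFun := by fun_prop
      source' := by simp
      target' := by simp }
  let r' : Path ((1 : ℝ), (0 : ℝ)) (1, 1) :=
    { toFun := fun s => (1, (s : ℝ))
      continuous_toFun := by fun_prop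
      source' := by simp
      target' := by simp }
  rw [← hH' b' (fun _ => Set.mem_univ _) b (fun s => by rw [hb, ← f0]; rfl),
    ← hH' t' (fun _ => Set.mem_univ _) t (fun s => by rw [ht, ← f1]; rfl),
    ← hH' l' (fun _ => Set.mem_univ _) l (fun s => by rw [hl, ← f2]; rfl),
    ← hH' r' (fun _ => Set.mem_univ _) r (fun s => by rw [hr, ← f3]; rfl),
    ← H'.trans _ _ (fun _ => Set.mem_univ _) (fun _ => Set.mem_univ _),
    ← H'.trans _ _ (fun _ => Set.mem_univ _) (fun _ => Set.mem_univ _)]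
  obtain ⟨h⟩ := SimplyConnectedSpace.paths_homotopic (b'.trans r') (l'.trans t')
  exact H'.homot _ _ h (fun _ => Set.mem_univ _)

/-! ### Triviality on the two parts -/

section main

variable {Γ : Type*} [Group Γ]

/-- from triviality of the pull back to triviality on `OA` -/
theorem triv_OA (H : HolOn (KMᶜ) Γ) (H0 : HolOn (K0ᶜ) Γ)
    (hH : ∀ {x y : C4 × ℝ × ℝ} (γ : Path x y) (_ : ∀ t, γ t ∈ K0ᶜ)
      (γ' : Path (emb x) (emb y)), (∀ t, γ' t = emb (γ t)) → H0.hol γ = H.hol γ')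
    (h0 : H0.Triv) : (H.restrict (Set.inter_subset_right : OA ∩ KMᶜ ⊆ KMᶜ)).Triv := by
  obtain ⟨p, hp⟩ := h0
  refine ⟨fun x => p (iemb x), fun {x y} γ hγ => ?_⟩
  change H.hol γ = _
  have hc : ContinuousOn iemb (Set.range γ) := continuousOn_iemb.mono (by
    rintro _ ⟨t, rfl⟩
    exact (hγ t).1)
  have h1 := hp (γ.map' hc) (fun t => iemb_mem (hγ t).1 (hγ t).2)
  rw [← h1, hH (γ.map' hc) (fun t => iemb_mem (hγ t).1 (hγ t).2)
    ((γ.map' hc).map continuous_emb) (fun t => rfl)]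
  apply H.hol_congr
  intro t
  change γ t = emb (iemb (γ t))
  rw [emb_iemb _ (hγ t).1]

/-- the point of the sphere used as a base point of the outer part -/
noncomputable def qq : S2 := st (-1) (-1)

theorem qq_mem : qq ∈ VV := st_mem_VV.mpr (Or.inl (by norm_num))

theorem triv_OB (H : HolOn (KMᶜ) Γ)
    (t₁ : (H.restrict (Set.inter_subset_right : OA ∩ KMᶜ ⊆ KMᶜ)).Triv) :
    (H.restrict (Set.inter_subset_right : OB ∩ KMᶜ ⊆ KMᶜ)).Triv := by
  classical
  obtain ⟨p, hp⟩ := t₁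
  have hN : ∀ a : C4, (a, npole) ∈ KMᶜ := fun a => OB_subset (mem_VV_of_2 npole_2)
  -- the path from the north pole to `qq`
  have hq : ∀ a : C4, (a, qq) ∈ OB := fun a => qq_mem
  let L : C4 × S2 → Γ := fun x => if hx : x ∈ OB then H.hol (toN x hx) else 1
  let R : C4 → Γ := fun a => H.hol (toN (a, qq) (hq a))
  refine ⟨fun x => p (x.1, qq) * R x.1 * (L x)⁻¹, fun {x y} γ hγ => ?_⟩
  change H.hol γ = _
  have hx : x ∈ OB := by have := (hγ 0).1; rwa [γ.source] at this
  have hy : y ∈ OB := by have := (hγ 1).1; rwa [γ.target] at this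
  have hLx : L x = H.hol (toN x hx) := dif_pos hx
  have hLy : L y = H.hol (toN y hy) := dif_pos hy
  let γ1 : Path x.1 y.1 := γ.map continuous_fst
  let τ : Path (x.1, npole) (y.1, npole) := γ1.prod (Path.refl npole)
  let sg : Path (x.1, qq) (y.1, qq) := γ1.prod (Path.refl qq)
  have e1 : H.hol γ * H.hol (toN y hy) = H.hol (toN x hx) * H.hol τ := by
    apply hol_square H (fun z => ((γ z.1).1, kap (γ z.1).2 z.2))
    · exact (continuous_fst.comp (γ.continuous.comp continuous_fst)).prodMk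
        (continuous_kap (continuous_snd.comp (γ.continuous.comp continuous_fst))
          (continuous_subtype_val.comp continuous_snd) fun z => (hγ z.1).1)
    · intro z
      exact OB_subset (kap_OB (hγ z.1).1 z.2)
    · intro s
      change γ s = ((γ s).1, kap (γ s).2 0)
      rw [kap_zero (hγ s).1]
    · intro s
      change ((γ s).1, npole) = ((γ s).1, kap (γ s).2 1)
      rw [kap_one (hγ s).1]
    · intro s
      change (x.1, kap x.2 s) = ((γ 0).1, kap (γ 0).2 s)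
      rw [γ.source]
    · intro s
      change (y.1, kap y.2 s) = ((γ 1).1, kap (γ 1).2 s)
      rw [γ.target]
  have e2 : H.hol sg * R y.1 = R x.1 * H.hol τ := by
    apply hol_square H (fun z => ((γ z.1).1, kap qq z.2))
    · exact (continuous_fst.comp (γ.continuous.comp continuous_fst)).prodMk
        (continuous_kap continuous_const (continuous_subtype_val.comp continuous_snd) fun z => qq_mem)
    · intro z
      exact OB_subset (kap_OB (hq (γ z.1).1) z.2)
    · intro s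
      change ((γ s).1, qq) = ((γ s).1, kap qq 0)
      rw [kap_zero qq_mem]
    · intro s
      change ((γ s).1, npole) = ((γ s).1, kap qq 1)
      rw [kap_one qq_mem]
    · intro s
      change (x.1, kap qq s) = ((γ 0).1, kap qq s)
      rw [γ.source]
    · intro s
      change (y.1, kap qq s) = ((γ 1).1, kap qq s)
      rw [γ.target]
  have e3 : H.hol sg = (p (x.1, qq))⁻¹ * p (y.1, qq) :=
    hp sg (fun t => ⟨st_2_ne _ _, OB_subset (hq _)⟩)
  change H.hol γ = (p (x.1, qq) * R x.1 * (L x)⁻¹)⁻¹ * (p (y.1, qq) * R y.1 * (L y)⁻¹)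
  rw [hLx, hLy]
  have e4 : H.hol τ = (R x.1)⁻¹ * (H.hol sg * R y.1) := by rw [e2]; group
  have e5 : H.hol γ = H.hol (toN x hx) * H.hol τ * (H.hol (toN y hy))⁻¹ := by
    rw [← e1]; group
  rw [e5, e4, e3]
  group

theorem loop_pull {H : HolOn (KMᶜ) Γ} {H0 : HolOn (K0ᶜ) Γ}
    (hH : ∀ {x y : C4 × ℝ × ℝ} (γ : Path x y) (_ : ∀ t, γ t ∈ K0ᶜ)
      (γ' : Path (emb x) (emb y)), (∀ t, γ' t = emb (γ t)) → H0.hol γ = H.hol γ')
    (ℓ : C(C26, C4 × ℝ × ℝ)) (hℓ : ∀ t, ℓ t ∈ K0ᶜ) (ℓ' : C(C26, C4 × S2))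
    (h : ∀ t, ℓ' t = emb (ℓ t)) : H0.loop ℓ = H.loop ℓ' := by
  unfold HolOn.loop
  rw [hH _ (fun t => hℓ _) (Path.map _ continuous_emb) (fun t => rfl)]
  apply H.hol_congr
  intro t
  exact (h _).symm

end main

end Pool.Agent.Helper35.MazSph

namespace Pool.Agent.Helper26.Maz

open Pool.Agent.Helper35.MazSph

theorem SPH_conn (h : IsPathConnected (K0ᶜ)) : IsPathConnected (KMᶜ) := by
  have h1 : IsPathConnected (emb '' K0ᶜ) := h.image continuous_emb
  have e : KMᶜ = emb '' K0ᶜ ∪ OB := by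
    ext p
    constructor
    · intro hp
      rcases OA_union_OB p with h' | h'
      · exact Or.inl ⟨iemb p, iemb_mem h' hp, emb_iemb p h'⟩
      · exact Or.inr h'
    · rintro (⟨q, hq, rfl⟩ | h')
      · exact emb_mem_compl hq
      · exact OB_subset h'
  rw [e]
  obtain ⟨q, hq⟩ := isPathConnected_outerR.nonempty
  exact h1.union isPathConnected_OB ⟨emb q, ⟨q, outerR_subset hq, rfl⟩, emb_mem_OB.mpr hq⟩

theorem SPH_triv {Γ : Type*} [Group Γ] (ℓ : C(C26, C4 × ℝ × ℝ)) (hℓ : ∀ t, ℓ t = knot (1 / 2) t)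
    (r : C(C26, C4 × ℝ × ℝ)) (hr : ∀ t, r t = ring t)
    (h : ∀ H : HolOn (K0ᶜ) Γ, H.loop ℓ = 1 → H.loop r = 1 → H.Triv)
    (ℓ' : C(C26, C4 × S2)) (hℓ' : ∀ t, ℓ' t = emb (knot (1 / 2) t))
    (H : HolOn (KMᶜ) Γ) (h1 : H.loop ℓ' = 1) : H.Triv := by
  obtain ⟨H0, hH0⟩ := HolOn.exists_pull (S := K0ᶜ) emb continuous_emb.continuousOn
    (fun p hp => emb_mem_compl hp) H
  have l1 : H0.loop ℓ = 1 := by
    rw [loop_pull hH0 ℓ (fun t => by rw [hℓ]; exact knot_half_notMem t) ℓ'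
      (fun t => by rw [hℓ, hℓ']), h1]
  have l2 : H0.loop r = 1 := by
    have hrO : ∀ t, r t ∈ outerR := fun t => by rw [hr]; exact (ring_spec t).2
    let r' : C(C26, C4 × S2) := ⟨fun t => emb (r t), continuous_emb.comp r.continuous⟩
    rw [loop_pull hH0 r (fun t => outerR_subset (hrO t)) r' (fun t => rfl)]
    let c' : C(C26, C4 × S2) := ContinuousMap.const _ (((1 / 2 : ℝ) : C4), npole)
    have hV : ∀ t, (emb (r t)).2 ∈ VV := fun t => emb_mem_OB.mpr (hrO t)
    obtain ⟨u, hu⟩ := H.loop_conj r' c'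
      (fun z => (((1 / 2 : ℝ) : C4), kap (emb (r z.1)).2 z.2))
      (continuous_const.prodMk (continuous_kap
        (continuous_snd.comp (continuous_emb.comp (r.continuous.comp continuous_fst)))
        (continuous_subtype_val.comp continuous_snd) fun z => hV z.1))
      (fun t => by
        change (((1 / 2 : ℝ) : C4), kap (emb (r t)).2 0) = emb (r t)
        rw [kap_zero (hV t)]
        refine Prod.ext ?_ rfl
        change _ = (r t).1
        rw [hr, (ring_spec t).1])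
      (fun t => by
        change (((1 / 2 : ℝ) : C4), kap (emb (r t)).2 1) = _
        rw [kap_one (hV t)]
        rfl)
      (fun z => OB_subset (kap_mem (hV z.1) z.2.2.1 z.2.2.2))
    have hc : H.loop c' = 1 := by
      have h2 : H.hol (Path.refl ((((1 / 2 : ℝ) : C4), npole) : C4 × S2)) = 1 :=
        H.hol_refl (OB_subset (mem_VV_of_2 npole_2))
      rw [← h2]
      apply H.hol_congr
      intro t
      rfl
    rw [hc] at hu
    have : H.loop r' = u * (u⁻¹ * H.loop r' * u) * u⁻¹ := by group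
    rw [this, ← hu]
    group
  have t₁ := triv_OA H H0 hH0 (h H0 l1 l2)
  have t₂ := triv_OB H t₁
  refine H.triv_of_two OA OB isOpen_OA isOpen_OB (fun p _ => OA_union_OB p) t₁ t₂ ?_
  have e : OA ∩ OB ∩ KMᶜ = emb '' outerR := by
    ext p
    constructor
    · rintro ⟨⟨hA, hB⟩, -⟩
      refine ⟨iemb p, ?_, emb_iemb p hA⟩
      rw [← emb_mem_OB, emb_iemb p hA]
      exact hB
    · rintro ⟨q, hq, rfl⟩
      exact ⟨⟨emb_mem_OA q, emb_mem_OB.mpr hq⟩, OB_subset (emb_mem_OB.mpr hq)⟩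
  rw [e]
  exact isPathConnected_outerR.image continuous_emb

end Pool.Agent.Helper26.Maz
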