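import Mathlib
import Pool.Agent.Helper35.Maz.Sph
import Pool.Agent.Helper85.MazVK

/-!
# From the complement in the solid torus to the complement in the product with the sphere
(module MAZ-SPH, existence)
-/

set_option autoImplicit false

namespace Pool.Agent.Helper26.Maz

open Pool.Agent.Helper35.MazSph

theorem SPH_exists {Γ : Type*} [Group Γ] (ℓ : C(C26, C4 × ℝ × ℝ))
    (hℓ : ∀ t, ℓ t = knot (1 / 2) t) (H : HolOn (K0ᶜ) Γ) (T : HolOn (Set.univ : Set C4) Γ)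
    (hT : ∀ {x y : C4 × ℝ × ℝ} (γ : Path x y) (γ' : Path x.1 y.1), (∀ t, γ' t = (γ t).1) →
      (∀ t, γ t ∈ outerR) → H.hol γ = T.hol γ')
    (h1 : H.loop ℓ = 1) (h2 : ¬ H.Triv) (ℓ' : C(C26, C4 × S2))
    (hℓ' : ∀ t, ℓ' t = emb (knot (1 / 2) t)) :
    ∃ H' : HolOn (KMᶜ) Γ, H'.loop ℓ' = 1 ∧ ¬ H'.Triv := by
  classical
  have hcA : ContinuousOn iemb (OA ∩ KMᶜ) := continuousOn_iemb.mono fun p hp => hp.1
  obtain ⟨F1, hF1⟩ := HolOn.exists_pull (S := OA ∩ KMᶜ) iemb hcA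
    (fun p hp => iemb_mem hp.1 hp.2) H
  obtain ⟨F2, hF2⟩ := HolOn.exists_pull (S := OB ∩ KMᶜ) (Prod.fst : C4 × S2 → C4)
    continuous_fst.continuousOn (fun p hp => Set.mem_univ _) T
  have key : ∀ {x y : C4 × S2} (γ : Path x y), (∀ t, γ t ∈ OA ∩ OB ∩ KMᶜ) →
      F1.hol γ = F2.hol γ := by
    intro x y γ hγ
    have hc : ContinuousOn iemb (Set.range γ) := continuousOn_iemb.mono (by
      rintro _ ⟨t, rfl⟩
      exact (hγ t).1.1)
    rw [hF1 γ (fun t => ⟨(hγ t).1.1, (hγ t).2⟩) (γ.map' hc) (fun t => rfl),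
      hF2 γ (fun t => ⟨(hγ t).1.2, (hγ t).2⟩) (γ.map continuous_fst) (fun t => rfl)]
    refine hT (γ.map' hc) (γ.map continuous_fst) (fun t => rfl) fun t => ?_
    rw [← emb_mem_OB]
    change emb (iemb (γ t)) ∈ OB
    rw [emb_iemb _ (hγ t).1.1]
    exact (hγ t).1.2
  obtain ⟨H', hH'⟩ := HolOn.glue (ι := Bool) (S := KMᶜ) (fun b => if b then OA else OB)
    (fun b => by cases b <;> simp [isOpen_OA, isOpen_OB])
    (fun p _ => by
      rcases OA_union_OB p with h | h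
      · exact Set.mem_iUnion.mpr ⟨true, h⟩
      · exact Set.mem_iUnion.mpr ⟨false, h⟩)
    (fun b => match b with
      | true => F1
      | false => F2)
    (fun i j x y γ hγ => by
      cases i <;> cases j
      · rfl
      · exact (key γ fun t => ⟨⟨(hγ t).1.2, (hγ t).1.1⟩, (hγ t).2⟩).symm
      · exact key γ hγ
      · rfl)
  have hA : ∀ {x y : C4 × S2} (γ : Path x y), (∀ t, γ t ∈ OA ∩ KMᶜ) → H'.hol γ = F1.hol γ :=
    fun γ hγ => hH' true γ hγ
  have hE : ∀ {x y : C4 × ℝ × ℝ} (γ : Path x y) (_ : ∀ t, γ t ∈ K0ᶜ)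
      (γ' : Path (emb x) (emb y)), (∀ t, γ' t = emb (γ t)) → H.hol γ = H'.hol γ' := by
    intro x y γ hγ γ' hγ'
    have hm : ∀ t, γ' t ∈ OA ∩ KMᶜ := fun t => by
      rw [hγ']
      exact ⟨emb_mem_OA _, emb_mem_compl (hγ t)⟩
    have hc : ContinuousOn iemb (Set.range γ') := continuousOn_iemb.mono (by
      rintro _ ⟨t, rfl⟩
      exact (hm t).1)
    rw [hA γ' hm, hF1 γ' hm (γ'.map' hc) (fun t => rfl)]
    apply H.hol_congr
    intro t
    change γ t = iemb (γ' t)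
    rw [hγ', iemb_emb]
  refine ⟨H', ?_, fun ht => h2 ?_⟩
  · rw [← loop_pull hE ℓ (fun t => by rw [hℓ]; exact knot_half_notMem t) ℓ'
      (fun t => by rw [hℓ, hℓ']), h1]
  · obtain ⟨p, hp⟩ := ht
    refine ⟨fun x => p (emb x), fun {x y} γ hγ => ?_⟩
    rw [hE γ hγ (γ.map continuous_emb) (fun t => rfl)]
    exact hp _ fun t => emb_mem_compl (hγ t)

end Pool.Agent.Helper26.Maz
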